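import Pool.Agent.LKU.Stmts

/-!
# Squad LKU, row RDX: the four piercings
-/

set_option autoImplicit false

namespace Pool.Agent.LKU.H11

open Pool.Agent.LCK Pool.Agent.LKT

theorem rdx_hom (x : Fin 8 → E3) (a : Fin 8) (ha : ¬(a = 0 ∨ a = 7)) : hom x a 0 = 1 := by
  show (if a = 0 ∨ a = 7 then (0 : ℝ) else 1) = 1
  rw [if_neg ha]

theorem rdx_meet (x : Fin 8 → E3) (a b c d e : Fin 8) (ha : ¬(a = 0 ∨ a = 7))
    (hb : ¬(b = 0 ∨ b = 7)) (hc : ¬(c = 0 ∨ c = 7)) (hd : ¬(d = 0 ∨ d = 7))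
    (he : ¬(e = 0 ∨ e = 7)) (p q r s t : ℝ) (hp : 0 < p) (hq : 0 < q) (hr : 0 < r) (hs : 0 < s)
    (ht : 0 < t)
    (h : ∀ i : Fin 4, p * hom x a i + q * hom x b i =
      r * hom x c i + s * hom x d i + t * hom x e i) :
    Meet (x a) (x b) (x c) (x d) (x e) := by
  have h0 := h 0
  rw [rdx_hom x a ha, rdx_hom x b hb, rdx_hom x c hc, rdx_hom x d hd, rdx_hom x e he, mul_one,
    mul_one, mul_one, mul_one, mul_one] at h0
  have h1 : p * x a 0 + q * x b 0 = r * x c 0 + s * x d 0 + t * x e 0 := h 1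
  have h2 : p * x a 1 + q * x b 1 = r * x c 1 + s * x d 1 + t * x e 1 := h 2
  have h3 : p * x a 2 + q * x b 2 = r * x c 2 + s * x d 2 + t * x e 2 := h 3
  have hpq : 0 < p + q := add_pos hp hq
  have e0 : p • x a + q • x b = r • x c + s • x d + t • x e := by
    ext i
    fin_cases i
    · exact h1
    · exact h2
    · exact h3
  have e1 : ∀ (w : ℝ) (y : E3), (w / (p + q)) • y = (p + q)⁻¹ • (w • y) := by
    intro w y
    rw [smul_smul, div_eq_mul_inv, mul_comm]
  refine ⟨q / (p + q), r / (p + q), s / (p + q), t / (p + q), (div_pos hq hpq).le, ?_,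
    (div_pos hr hpq).le, (div_pos hs hpq).le, (div_pos ht hpq).le, ?_, ?_⟩
  · rw [div_le_one hpq]
    linarith
  · rw [← add_div, ← add_div, ← h0, div_self hpq.ne']
  · have e2 : 1 - q / (p + q) = p / (p + q) := by
      rw [eq_div_iff hpq.ne', sub_mul, one_mul, div_mul_cancel₀ _ hpq.ne']
      ring
    rw [e2, e1, e1, e1, e1, e1, ← smul_add, ← smul_add, ← smul_add, e0]

theorem rdx (crm : Pool.Agent.LKT.CrmStmt) : RdxStmt := by
  intro x hx
  have f22 := hx 22 (by norm_num)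
  have f23 := hx 23 (by norm_num)
  have f24 := hx 24 (by norm_num)
  have f25 := hx 25 (by norm_num)
  have f26 := hx 26 (by norm_num)
  have f28 := hx 28 (by norm_num)
  have f31 := hx 31 (by norm_num)
  have f34 := hx 34 (by norm_num)
  have f36 := hx 36 (by norm_num)
  have f40 := hx 40 (by norm_num)
  have f41 := hx 41 (by norm_num)
  have f43 := hx 43 (by norm_num)
  have f45 := hx 45 (by norm_num)
  have f48 := hx 48 (by norm_num)
  simp only [F2, tb2, Int.cast_neg, Int.cast_one, neg_mul, one_mul] at f22 f23 f24 f25 f26 f28 f31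
  simp only [F2, tb2, Int.cast_neg, Int.cast_one, neg_mul, one_mul] at f34 f36 f40 f41 f43 f45 f48
  refine ⟨?_, ?_, ?_, ?_⟩
  · refine rdx_meet x 1 2 3 4 5 (by decide) (by decide) (by decide) (by decide) (by decide)
      (-D x 2 3 4 5) (D x 1 3 4 5) (D x 1 2 4 5) (-D x 1 2 3 5) (D x 1 2 3 4)
      f40 f31 f25 f23 f22 fun i => ?_
    have h := crm.1 (hom x 1) (hom x 2) (hom x 3) (hom x 4) (hom x 5) i
    unfold D
    linear_combination -h
  · refine rdx_meet x 1 2 4 5 6 (by decide) (by decide) (by decide) (by decide) (by decide)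
      (-D x 2 4 5 6) (D x 1 4 5 6) (D x 1 2 5 6) (-D x 1 2 4 6) (D x 1 2 4 5)
      f45 f36 f28 f26 f25 fun i => ?_
    have h := crm.1 (hom x 1) (hom x 2) (hom x 4) (hom x 5) (hom x 6) i
    unfold D
    linear_combination -h
  · refine rdx_meet x 5 6 1 2 3 (by decide) (by decide) (by decide) (by decide) (by decide)
      (D x 1 2 3 6) (-D x 1 2 3 5) (D x 2 3 5 6) (-D x 1 3 5 6) (D x 1 2 5 6)
      f24 f23 f43 f34 f28 fun i => ?_
    have h := crm.1 (hom x 1) (hom x 2) (hom x 3) (hom x 5) (hom x 6) i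
    unfold D
    linear_combination -h
  · refine rdx_meet x 5 6 2 3 4 (by decide) (by decide) (by decide) (by decide) (by decide)
      (D x 2 3 4 6) (-D x 2 3 4 5) (D x 3 4 5 6) (-D x 2 4 5 6) (D x 2 3 5 6)
      f41 f40 f48 f45 f43 fun i => ?_
    have h := crm.1 (hom x 2) (hom x 3) (hom x 4) (hom x 5) (hom x 6) i
    unfold D
    linear_combination -h

end Pool.Agent.LKU.H11
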